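import Pool.Agent.N290.R5.HB
import Pool.Agent.N290.RJ.Stm3

/-!
# Project RJ, GEL: from a subalgebra of `H^∞` to its uniform closure
-/

set_option autoImplicit false

open Metric Set Filter Topology

namespace Pool.Agent.N342.RJ

open Pool.Agent.N290.R5 (BH Chr gelf)
open Pool.Agent.N290.RJ (E N nm B)

section

variable {X : Type} [NormedAddCommGroup X] [NormedSpace ℂ X] {Ω : Set X}

theorem bh_add {f g : X → ℂ} (hf : BH Ω f) (hg : BH Ω g) : BH Ω (fun z => f z + g z) := by
  obtain ⟨M, hM⟩ := hf.2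
  obtain ⟨M', hM'⟩ := hg.2
  exact ⟨hf.1.add hg.1, M + M', fun z hz => (norm_add_le _ _).trans
    (add_le_add (hM z hz) (hM' z hz))⟩

theorem bh_mul {f g : X → ℂ} (hf : BH Ω f) (hg : BH Ω g) : BH Ω (fun z => f z * g z) := by
  obtain ⟨M, hM⟩ := hf.2
  obtain ⟨M', hM'⟩ := hg.2
  refine ⟨hf.1.mul hg.1, M * M', fun z hz => ?_⟩
  rw [norm_mul]
  exact mul_le_mul (hM z hz) (hM' z hz) (norm_nonneg _) ((norm_nonneg _).trans (hM z hz))

theorem bh_const (c : ℂ) : BH Ω (fun _ : X => c) :=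
  ⟨differentiableOn_const _, ‖c‖, fun _ _ => le_rfl⟩

theorem bh_sum {ι : Type} (s : Finset ι) {f : ι → X → ℂ} (hf : ∀ i, BH Ω (f i)) :
    BH Ω (fun z => ∑ i ∈ s, f i z) := by
  classical
  induction s using Finset.induction_on with
  | empty => simpa using bh_const (Ω := Ω) 0
  | insert i s hi ih =>
    simp only [Finset.sum_insert hi]
    exact bh_add (hf i) ih

variable {χ : (X → ℂ) → ℂ}

theorem chr_sum (hχ : Chr Ω χ) {ι : Type} (s : Finset ι) {f : ι → X → ℂ} (hf : ∀ i, BH Ω (f i)) :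
    χ (fun z => ∑ i ∈ s, f i z) = ∑ i ∈ s, χ (f i) := by
  classical
  induction s using Finset.induction_on with
  | empty => simpa using hχ.const 0
  | insert i s hi ih =>
    rw [Finset.sum_insert hi, ← ih, ← hχ.add _ _ (hf i) (bh_sum s hf)]
    simp only [Finset.sum_insert hi]

/-- uniform limits of bounded holomorphic functions -/
theorem bh_lim (hΩ : IsOpen Ω) {f : X → ℂ} (h : ∀ ε : ℝ, 0 < ε → ∃ s, BH Ω s ∧
    ∀ z ∈ Ω, ‖f z - s z‖ ≤ ε) : BH Ω f := by
  obtain ⟨s₁, ⟨hs₁, M, hM⟩, hfs⟩ := h 1 one_pos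
  have hfb : ∀ z ∈ Ω, ‖f z‖ ≤ M + 1 := by
    intro z hz
    have e : f z = s₁ z + (f z - s₁ z) := by ring
    rw [e]
    exact (norm_add_le _ _).trans (add_le_add (hM z hz) (hfs z hz))
  choose s hs hs' using fun k : ℕ => h (1 / ((k : ℝ) + 1)) (by positivity)
  obtain ⟨g, hg, -, hlim⟩ := Pool.Agent.H720R2.Cor.ultra_lim hΩ
    (C := M + 2) (Ultrafilter.of (atTop : Filter ℕ)) s (fun k => (hs k).1) (fun k z hz => by
      have e : s k z = f z - (f z - s k z) := by ring
      rw [e]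
      have h1 := norm_sub_le (f z) (f z - s k z)
      have h2 := hfb z hz
      have h3 := hs' k z hz
      have h4 : 1 / ((k : ℝ) + 1) ≤ 1 := by
        rw [div_le_one (by positivity)]
        have : (0 : ℝ) ≤ k := by positivity
        linarith
      linarith)
  refine ⟨hg.congr fun z hz => ?_, M + 1, hfb⟩
  have h1 : Tendsto (fun k => s k z) atTop (𝓝 (f z)) := by
    rw [tendsto_iff_norm_sub_tendsto_zero]
    refine squeeze_zero (fun k => norm_nonneg _) (fun k => ?_) tendsto_one_div_add_atTop_nhds_zero_nat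
    rw [norm_sub_rev]
    exact hs' k z hz
  exact tendsto_nhds_unique (h1.mono_left (Ultrafilter.of_le _)) (hlim z hz)

end

theorem gel (d : ℕ) : Pool.Agent.N290.RJ.GEL d := by
  intro 𝒮 hS hadd hsol M δ f hδ hf hlow
  have hopen : IsOpen (B d) := Pool.Agent.N290.RJ.B_open
  have hSb : ∀ s ∈ 𝒮, BH (B d) s := fun s hs => hS s hs
  have hfb : ∀ j, BH (B d) (f j) := by
    intro j
    refine bh_lim hopen fun ε hε => ?_
    obtain ⟨s, hs, h⟩ := hf j ε hε
    exact ⟨s, hSb s hs, h⟩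
  by_contra hno
  have hno' : ¬∃ g : Fin M → E d → ℂ, (∀ i, BH (B d) (g i)) ∧
      ∀ z ∈ B d, ∑ i, f i z * g i z = 1 := by
    rintro ⟨g, hg, hg1⟩
    choose C hC using fun i => (hg i).2
    refine hno ⟨g, ∑ i, |C i|, fun j => (hg j).1, fun z hz => ⟨fun j => ?_, hg1 z hz⟩⟩
    refine (hC j z hz).trans ((le_abs_self _).trans ?_)
    exact Finset.single_le_sum (f := fun i => |C i|) (fun i _ => abs_nonneg _) (Finset.mem_univ j)
  obtain ⟨χ, hχ, hχf⟩ := gelf hopen ⟨0, Pool.Agent.N290.RJ.zero_mem_B⟩ hfb hno'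
  obtain ⟨ε, hε⟩ : ∃ ε : ℝ, ε = δ / (4 * (M + 1)) := ⟨_, rfl⟩
  have hε0 : 0 < ε := by rw [hε]; positivity
  choose s hs hs' using fun j => hf j ε hε0
  have hc : ∀ j, ‖χ (s j)‖ ≤ ε := by
    intro j
    have e1 : χ (fun z => s j z + (-1) * f j z) = χ (s j) := by
      rw [hχ.add _ _ (hSb _ (hs j)) (bh_mul (bh_const _) (hfb j)),
        hχ.mul (fun _ => -1) (f j) (bh_const _) (hfb j), hχf j, mul_zero, add_zero]
    rw [← e1]
    refine hχ.le _ _ (bh_add (hSb _ (hs j)) (bh_mul (bh_const _) (hfb j))) hε0.le fun z hz => ?_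
    have e2 : s j z + (-1) * f j z = -(f j z - s j z) := by ring
    rw [e2, norm_neg]
    exact hs' j z hz
  obtain ⟨g, C, hgd, hg⟩ := hsol M (δ / 2) (fun j z => s j z + (-χ (s j))) (by positivity)
    (fun j => hadd _ (hs j) _) (by
      intro z hz
      have h1 : ∀ j, ‖f j z‖ ≤ ‖s j z + (-χ (s j))‖ + 2 * ε := by
        intro j
        have e : f j z = (s j z + (-χ (s j))) + ((f j z - s j z) + χ (s j)) := by ring
        have h2 := norm_add_le (s j z + (-χ (s j))) ((f j z - s j z) + χ (s j))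
        rw [← e] at h2
        have h3 := norm_add_le (f j z - s j z) (χ (s j))
        have h4 := hs' j z hz
        have h5 := hc j
        linarith
      have h2 : ∑ j, ‖f j z‖ ≤ ∑ j, (‖s j z + (-χ (s j))‖ + 2 * ε) :=
        Finset.sum_le_sum fun j _ => h1 j
      rw [Finset.sum_add_distrib, Finset.sum_const, Finset.card_univ, Fintype.card_fin,
        nsmul_eq_mul] at h2
      have h3 := hlow z hz
      have h4 : (M : ℝ) * (2 * ε) ≤ δ / 2 := by
        rw [hε]
        have h5 : (M : ℝ) * (2 * (δ / (4 * (M + 1)))) = (δ / 2) * (M / (M + 1)) := by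
          field_simp
          ring
        rw [h5]
        have h6 : (M : ℝ) / (M + 1) ≤ 1 := by
          rw [div_le_one (by positivity)]
          linarith
        have h7 : 0 ≤ δ / 2 := by positivity
        nlinarith
      linarith)
  have hgb : ∀ j, BH (B d) (g j) := fun j => ⟨hgd j, C, fun z hz => (hg z hz).1 j⟩
  have hsb : ∀ j, BH (B d) (fun z => s j z + (-χ (s j))) :=
    fun j => bh_add (hSb _ (hs j)) (bh_const _)
  have hz : ∀ j, χ (fun z => s j z + (-χ (s j))) = 0 := by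
    intro j
    rw [hχ.add _ _ (hSb _ (hs j)) (bh_const _), hχ.const, add_neg_cancel]
  have h1 := chr_sum hχ Finset.univ (fun j => bh_mul (hsb j) (hgb j))
  have h2 := hχ.congr _ (fun _ => 1) (bh_sum Finset.univ (fun j => bh_mul (hsb j) (hgb j)))
    (bh_const 1) (fun z hz => (hg z hz).2)
  rw [h1, hχ.const, Finset.sum_eq_zero] at h2
  · exact zero_ne_one h2
  · intro j _
    rw [hχ.mul _ _ (hsb j) (hgb j), hz j, zero_mul]

end Pool.Agent.N342.RJ
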